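import Mathlib

/-!
# Bracket (Greene–Kleitman / BTK) chain reversal on the Boolean cube

`R x` reverses the symmetric chain containing `x`.  The coordinates of `x : Fin m → Bool` are
read from the last one to the coordinate `0`; a `true` is matched with the most recent
unmatched `false`.
-/

namespace Pool.Agent.H99.Bracket

open Finset

/-- update of the state `(number of unmatched true, number of unmatched false)` -/
def stp (b : Bool) (s : ℕ × ℕ) : ℕ × ℕ :=
  if b = true then (if 0 < s.2 then (s.1, s.2 - 1) else (s.1 + 1, s.2)) else (s.1, s.2 + 1)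

/-- the state -/
def st : ∀ {m : ℕ}, (Fin m → Bool) → ℕ × ℕ
  | 0, _ => (0, 0)
  | _ + 1, x => stp (x 0) (st (Fin.tail x))

/-- number of unmatched coordinates -/
def uu {m : ℕ} (x : Fin m → Bool) : ℕ := (st x).1 + (st x).2

/-- `cons` for Boolean vectors -/
def bc {m : ℕ} (b : Bool) (x : Fin m → Bool) : Fin (m + 1) → Bool :=
  Fin.cons (α := fun _ => Bool) b x

/-- the element of the chain of `x` with `k` unmatched `true`s -/
def g : ∀ {m : ℕ}, (Fin m → Bool) → ℕ → (Fin m → Bool)
  | 0, x, _ => x
  | _ + 1, x, k =>
    if x 0 = true ∧ 0 < (st (Fin.tail x)).2 then bc true (g (Fin.tail x) k)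
    else if k ≤ uu (Fin.tail x) then bc false (g (Fin.tail x) k)
    else bc true (g (Fin.tail x) (uu (Fin.tail x)))

/-- chain reversal -/
def R {m : ℕ} (x : Fin m → Bool) : Fin m → Bool := g x (st x).2

@[simp] lemma bc_zero {m : ℕ} (b : Bool) (x : Fin m → Bool) : bc b x 0 = b := rfl
@[simp] lemma bc_tail {m : ℕ} (b : Bool) (x : Fin m → Bool) : Fin.tail (bc b x) = x := by
  funext i; rfl
@[simp] lemma bc_succ {m : ℕ} (b : Bool) (x : Fin m → Bool) (i : Fin m) :
    bc b x i.succ = x i := rfl

lemma bc_eta {m : ℕ} (x : Fin (m + 1) → Bool) : bc (x 0) (Fin.tail x) = x :=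
  Fin.cons_self_tail x

@[simp] lemma st_bc {m : ℕ} (b : Bool) (x : Fin m → Bool) : st (bc b x) = stp b (st x) := by
  simp [st]

lemma g_bc {m : ℕ} (b : Bool) (x : Fin m → Bool) (k : ℕ) :
    g (bc b x) k = if b = true ∧ 0 < (st x).2 then bc true (g x k)
      else if k ≤ uu x then bc false (g x k) else bc true (g x (uu x)) := by
  simp [g]

lemma ind {P : ∀ m : ℕ, (Fin m → Bool) → Prop} (h0 : ∀ x : Fin 0 → Bool, P 0 x)
    (hs : ∀ m b (x : Fin m → Bool), P m x → P (m + 1) (bc b x)) :
    ∀ m (x : Fin m → Bool), P m x := by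
  intro m
  induction m with
  | zero => exact h0
  | succ m ih =>
    intro x
    have := hs m (x 0) (Fin.tail x) (ih _)
    rwa [bc_eta] at this

lemma uu_short {m : ℕ} {b : Bool} {x : Fin m → Bool} (h : b = true ∧ 0 < (st x).2) :
    uu (bc b x) = uu x - 1 := by
  obtain ⟨h1, h2⟩ := h
  simp [uu, stp, h1, h2]; omega

lemma uu_long {m : ℕ} {b : Bool} {x : Fin m → Bool} (h : ¬ (b = true ∧ 0 < (st x).2)) :
    uu (bc b x) = uu x + 1 := by
  cases b
  · simp [uu, stp]; omega
  · simp only [true_and, not_lt, Nat.le_zero] at h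
    simp [uu, stp, h]

lemma st_g : ∀ m (x : Fin m → Bool) (k : ℕ), k ≤ uu x → st (g x k) = (k, uu x - k) := by
  apply ind
  · intro x k hk
    have : k = 0 := by simpa [uu, st] using hk
    subst this
    simp [st, uu]
  · intro m b x ih k hk
    rw [g_bc]
    by_cases h : b = true ∧ 0 < (st x).2
    · rw [if_pos h]
      rw [uu_short h] at hk ⊢
      have hu : 0 < uu x := by have := h.2; unfold uu; omega
      have h1 : k ≤ uu x := by omega
      rw [st_bc, ih k h1]
      have h2 : 0 < uu x - k := by omega
      simp only [stp, if_true, h2]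
      ext
      · rfl
      · show uu x - k - 1 = uu x - 1 - k
        omega
    · rw [if_neg h]
      rw [uu_long h] at hk ⊢
      by_cases h1 : k ≤ uu x
      · rw [if_pos h1, st_bc, ih k h1]
        simp [stp]; omega
      · rw [if_neg h1, st_bc, ih _ le_rfl]
        have : k = uu x + 1 := by omega
        simp [stp, this]

lemma uu_g {m : ℕ} (x : Fin m → Bool) (k : ℕ) (hk : k ≤ uu x) : uu (g x k) = uu x := by
  conv_lhs => unfold uu
  rw [st_g m x k hk]
  show k + (uu x - k) = uu x
  omega

lemma g_g : ∀ m (x : Fin m → Bool) (k j : ℕ), k ≤ uu x → j ≤ uu x → g (g x k) j = g x j := by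
  apply ind (P := fun m x => ∀ k j : ℕ, k ≤ uu x → j ≤ uu x → g (g x k) j = g x j)
  · intro x k j _ _
    rfl
  · intro m b x ih k j hk hj
    rw [g_bc b x k, g_bc b x j]
    by_cases h : b = true ∧ 0 < (st x).2
    · rw [if_pos h, if_pos h]
      rw [uu_short h] at hk hj
      have hu : 0 < uu x := by have := h.2; unfold uu; omega
      rw [g_bc, if_pos, ih k j (by omega) (by omega)]
      refine ⟨rfl, ?_⟩
      rw [st_g m x k (by omega)]
      show 0 < uu x - k
      omega
    · rw [if_neg h, if_neg h]
      rw [uu_long h] at hk hj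
      by_cases h1 : k ≤ uu x
      · rw [if_pos h1, g_bc, if_neg (by simp), uu_g x k h1]
        by_cases h2 : j ≤ uu x
        · rw [if_pos h2, if_pos h2, ih k j h1 h2]
        · rw [if_neg h2, if_neg h2, ih k _ h1 le_rfl]
      · rw [if_neg h1, g_bc, if_neg, uu_g x _ le_rfl]
        · by_cases h2 : j ≤ uu x
          · rw [if_pos h2, if_pos h2, ih _ j le_rfl h2]
          · rw [if_neg h2, if_neg h2, ih _ _ le_rfl le_rfl]
        · rw [st_g m x _ le_rfl]
          simp

lemma g_p : ∀ m (x : Fin m → Bool), g x (st x).1 = x := by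
  apply ind
  · intro x; rfl
  · intro m b x ih
    rw [g_bc]
    by_cases h : b = true ∧ 0 < (st x).2
    · rw [if_pos h]
      obtain ⟨rfl, h2⟩ := h
      simp [stp, h2, ih]
    · rw [if_neg h]
      cases b
      · have : (stp false (st x)).1 = (st x).1 := by simp [stp]
        rw [st_bc, this, if_pos (by unfold uu; omega), ih]
      · have hq : (st x).2 = 0 := by simpa using h
        have h1 : (stp true (st x)).1 = (st x).1 + 1 := by simp [stp, hq]
        have h2 : uu x = (st x).1 := by unfold uu; omega
        rw [st_bc, h1, h2, if_neg (by omega), ih]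

/-- sign of a bit -/
def sg (b : Bool) : ℝ := if b = true then 1 else -1

@[simp] lemma sg_true : sg true = 1 := by simp [sg]
@[simp] lemma sg_false : sg false = -1 := by simp [sg]

lemma sum_bc {m : ℕ} (b : Bool) (x : Fin m → Bool) :
    ∑ i, sg (bc b x i) = sg b + ∑ i, sg (x i) := by
  rw [Fin.sum_univ_succ]; simp

lemma sum_sg : ∀ m (x : Fin m → Bool), ∑ i, sg (x i) = ((st x).1 : ℝ) - (st x).2 := by
  apply ind
  · intro x; simp [st]
  · intro m b x ih
    rw [sum_bc, ih, st_bc]
    cases b
    · simp [stp]; ring
    · by_cases h : 0 < (st x).2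
      · have : ((((st x).2 - 1 : ℕ)) : ℝ) = ((st x).2 : ℝ) - 1 := by
          rw [Nat.cast_sub h]; simp
        simp [stp, h, this]; ring
      · simp [stp, h]; ring

lemma R_R {m : ℕ} (x : Fin m → Bool) : R (R x) = x := by
  unfold R
  have h : (st x).2 ≤ uu x := by unfold uu; omega
  rw [st_g m x _ h]
  have h2 : (uu x - (st x).2) = (st x).1 := by unfold uu; omega
  show g (g x (st x).2) (uu x - (st x).2) = x
  rw [h2, g_g m x _ _ h (by unfold uu; omega), g_p]

lemma sum_R {m : ℕ} (x : Fin m → Bool) : ∑ i, sg (R x i) = - ∑ i, sg (x i) := by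
  have h : (st x).2 ≤ uu x := by unfold uu; omega
  rw [sum_sg, sum_sg]
  unfold R
  rw [st_g m x _ h]
  have h2 : (uu x - (st x).2) = (st x).1 := by unfold uu; omega
  show (((st x).2 : ℕ) : ℝ) - ((uu x - (st x).2 : ℕ) : ℝ) = _
  rw [h2]; ring

/-! ### distances -/

lemma hd_bc {m : ℕ} (a b : Bool) (x y : Fin m → Bool) :
    hammingDist (bc a x) (bc b y) = (if a = b then 0 else 1) + hammingDist x y := by
  unfold hammingDist
  rw [Finset.card_filter, Finset.card_filter, Fin.sum_univ_succ]
  congr 1
  · simp only [bc_zero]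
    by_cases h : a = b <;> simp [h]

lemma hd_same {m : ℕ} (a : Bool) (x y : Fin m → Bool) :
    hammingDist (bc a x) (bc a y) = hammingDist x y := by
  rw [hd_bc]; simp

lemma hd_le {m : ℕ} (a b : Bool) (x y : Fin m → Bool) :
    hammingDist (bc a x) (bc b y) ≤ 1 + hammingDist x y := by
  rw [hd_bc]; split_ifs <;> omega

lemma hd_g : ∀ m (x : Fin m → Bool) (j k : ℕ), j ≤ uu x → k ≤ uu x →
    hammingDist (g x j) (g x k) ≤ (j - k) + (k - j) := by
  apply ind (P := fun m x => ∀ j k : ℕ, j ≤ uu x → k ≤ uu x →
    hammingDist (g x j) (g x k) ≤ (j - k) + (k - j))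
  · intro x j k _ _
    have : g x j = g x k := rfl
    rw [this]; simp
  · intro m b x ih j k hj hk
    rw [g_bc, g_bc]
    by_cases h : b = true ∧ 0 < (st x).2
    · rw [if_pos h, if_pos h, hd_same]
      rw [uu_short h] at hj hk
      exact ih j k (by omega) (by omega)
    · rw [if_neg h, if_neg h]
      rw [uu_long h] at hj hk
      by_cases h1 : j ≤ uu x <;> by_cases h2 : k ≤ uu x
      · rw [if_pos h1, if_pos h2, hd_same]
        exact ih j k h1 h2
      · rw [if_pos h1, if_neg h2]
        have := ih j (uu x) h1 le_rfl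
        have h3 := hd_le false true (g x j) (g x (uu x))
        omega
      · rw [if_neg h1, if_pos h2]
        have := ih (uu x) k le_rfl h2
        have h3 := hd_le true false (g x (uu x)) (g x k)
        omega
      · rw [if_neg h1, if_neg h2]
        simp

lemma hd_R {m : ℕ} (x : Fin m → Bool) :
    (hammingDist x (R x) : ℝ) ≤ |∑ i, sg (x i)| := by
  have h1 := hd_g m x (st x).1 (st x).2 (by unfold uu; omega) (by unfold uu; omega)
  rw [g_p] at h1
  rw [sum_sg]
  have h2 : ((hammingDist x (R x) : ℕ) : ℝ) ≤
      ((((st x).1 - (st x).2) + ((st x).2 - (st x).1) : ℕ) : ℝ) := by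
    exact_mod_cast h1
  refine h2.trans ?_
  rcases le_total (st x).1 (st x).2 with h | h
  · rw [Nat.sub_eq_zero_of_le h]
    push_cast [Nat.cast_sub h]
    rw [abs_sub_comm]
    have : (0 : ℝ) + ((st x).2 - (st x).1) = (st x).2 - (st x).1 := by ring
    rw [this]
    exact le_abs_self _
  · rw [Nat.sub_eq_zero_of_le h]
    push_cast [Nat.cast_sub h]
    rw [add_zero]
    exact le_abs_self _

/-! ### the Lipschitz property -/

lemma g_long {m : ℕ} {b : Bool} {x : Fin m → Bool} (h : ¬ (b = true ∧ 0 < (st x).2)) (k : ℕ) :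
    g (bc b x) k = if k ≤ uu x then bc false (g x k) else bc true (g x (uu x)) := by
  rw [g_bc, if_neg h]

lemma g_short {m : ℕ} {b : Bool} {x : Fin m → Bool} (h : b = true ∧ 0 < (st x).2) (k : ℕ) :
    g (bc b x) k = bc true (g x k) := by
  rw [g_bc, if_pos h]

/-- the invariant: `y` is `x` with one `false` replaced by `true` -/
def Inv {m : ℕ} (x y : Fin m → Bool) : Prop :=
  ((st y).1 = (st x).1 ∧ (st x).2 = (st y).2 + 2 ∧ ∀ j k : ℕ, j ≤ uu x → k ≤ uu y →
      hammingDist (g x j) (g y k) ≤ 3 + ((j - (k + 2)) + ((k + 2) - j))) ∨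
  ((st y).1 = (st x).1 + 1 ∧ (st x).2 = (st y).2 + 1 ∧ ∀ j k : ℕ, j ≤ uu x → k ≤ uu y →
      hammingDist (g x j) (g y k) ≤ 6 + ((j - k) + (k - j))) ∨
  ((st y).1 = (st x).1 + 2 ∧ (st x).2 = (st y).2 ∧ ∀ j k : ℕ, j ≤ uu x → k ≤ uu y →
      hammingDist (g x j) (g y k) ≤ 9 + (((j + 2) - k) + (k - (j + 2))))

lemma stp_long {b : Bool} {s : ℕ × ℕ} (h : ¬ (b = true ∧ 0 < s.2)) :
    stp b s = (if b = true then (s.1 + 1, 0) else (s.1, s.2 + 1)) := by
  cases b
  · simp [stp]
  · have h1 : s.2 = 0 := by simpa using h
    simp [stp, h1]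

lemma inv_base {m : ℕ} (t : Fin m → Bool) : Inv (bc false t) (bc true t) := by
  have hf : ¬ (false = true ∧ 0 < (st t).2) := by simp
  by_cases hq : 0 < (st t).2
  · left
    refine ⟨by simp [stp, hq], by simp [stp, hq]; omega, ?_⟩
    intro j k hj hk
    rw [uu_long hf] at hj
    rw [uu_short ⟨rfl, hq⟩] at hk
    rw [g_long hf, g_short ⟨rfl, hq⟩]
    have hu : 0 < uu t := by unfold uu; omega
    by_cases h1 : j ≤ uu t
    · rw [if_pos h1]
      have := hd_g m t j k h1 (by omega)
      have h3 := hd_le false true (g t j) (g t k)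
      omega
    · rw [if_neg h1]
      have := hd_g m t (uu t) k le_rfl (by omega)
      rw [hd_same]
      omega
  · right; left
    have ht : ¬ (true = true ∧ 0 < (st t).2) := fun h => hq h.2
    refine ⟨by simp [stp, hq], by simp [stp, hq], ?_⟩
    intro j k hj hk
    have e : ∀ i, g (bc true t) i = g (bc false t) i := by
      intro i
      rw [g_long hf, g_long ht]
    rw [e]
    have hu : uu (bc true t) = uu (bc false t) := by
      rw [uu_long hf, uu_long ht]
    rw [hu] at hk
    have := hd_g _ (bc false t) j k hj hk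
    omega

lemma inv_step {m : ℕ} (b : Bool) (x y : Fin m → Bool) (h : Inv x y) :
    Inv (bc b x) (bc b y) := by
  have hfx : ¬ (false = true ∧ 0 < (st x).2) := by simp
  have hfy : ¬ (false = true ∧ 0 < (st y).2) := by simp
  rcases h with ⟨hp, hq, hD⟩ | ⟨hp, hq, hD⟩ | ⟨hp, hq, hD⟩
  · -- kind 1
    have hux : uu x = uu y + 2 := by unfold uu; omega
    cases b
    · left
      refine ⟨by simp [stp, hp], by simp [stp, hq], ?_⟩
      intro j k hj hk
      rw [uu_long hfx] at hj
      rw [uu_long hfy] at hk
      rw [g_long hfx, g_long hfy]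
      by_cases h1 : j ≤ uu x <;> by_cases h2 : k ≤ uu y
      · rw [if_pos h1, if_pos h2, hd_same]; exact hD j k h1 h2
      · rw [if_pos h1, if_neg h2]
        have := hD j (uu y) h1 le_rfl
        have h3 := hd_le false true (g x j) (g y (uu y))
        omega
      · rw [if_neg h1, if_pos h2]
        have := hD (uu x) k le_rfl h2
        have h3 := hd_le true false (g x (uu x)) (g y k)
        omega
      · rw [if_neg h1, if_neg h2, hd_same]
        have := hD (uu x) (uu y) le_rfl le_rfl
        omega
    · have hqx : 0 < (st x).2 := by omega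
      by_cases hqy : 0 < (st y).2
      · left
        refine ⟨by simp [stp, hqx, hqy, hp], by simp [stp, hqx, hqy]; omega, ?_⟩
        intro j k hj hk
        rw [uu_short ⟨rfl, hqx⟩] at hj
        rw [uu_short ⟨rfl, hqy⟩] at hk
        rw [g_short ⟨rfl, hqx⟩, g_short ⟨rfl, hqy⟩, hd_same]
        exact hD j k (by omega) (by omega)
      · right; left
        have hqy' : ¬ (true = true ∧ 0 < (st y).2) := fun h => hqy h.2
        refine ⟨by simp [stp, hqx, hqy, hp], by simp [stp, hqx, hqy]; omega, ?_⟩
        intro j k hj hk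
        rw [uu_short ⟨rfl, hqx⟩] at hj
        rw [uu_long hqy'] at hk
        rw [g_short ⟨rfl, hqx⟩, g_long hqy']
        by_cases h2 : k ≤ uu y
        · rw [if_pos h2]
          have := hD j k (by omega) h2
          have h3 := hd_le true false (g x j) (g y k)
          omega
        · rw [if_neg h2, hd_same]
          have := hD j (uu y) (by omega) le_rfl
          omega
  · -- kind 2
    have hux : uu x = uu y := by unfold uu; omega
    cases b
    · right; left
      refine ⟨by simp [stp, hp], by simp [stp, hq], ?_⟩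
      intro j k hj hk
      rw [uu_long hfx] at hj
      rw [uu_long hfy] at hk
      rw [g_long hfx, g_long hfy]
      by_cases h1 : j ≤ uu x <;> by_cases h2 : k ≤ uu y
      · rw [if_pos h1, if_pos h2, hd_same]; exact hD j k h1 h2
      · rw [if_pos h1, if_neg h2]
        have := hD j (uu y) h1 le_rfl
        have h3 := hd_le false true (g x j) (g y (uu y))
        omega
      · rw [if_neg h1, if_pos h2]
        have := hD (uu x) k le_rfl h2
        have h3 := hd_le true false (g x (uu x)) (g y k)
        omega
      · rw [if_neg h1, if_neg h2, hd_same]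
        have := hD (uu x) (uu y) le_rfl le_rfl
        omega
    · have hqx : 0 < (st x).2 := by omega
      by_cases hqy : 0 < (st y).2
      · right; left
        refine ⟨by simp [stp, hqx, hqy, hp], by simp [stp, hqx, hqy]; omega, ?_⟩
        intro j k hj hk
        rw [uu_short ⟨rfl, hqx⟩] at hj
        rw [uu_short ⟨rfl, hqy⟩] at hk
        rw [g_short ⟨rfl, hqx⟩, g_short ⟨rfl, hqy⟩, hd_same]
        exact hD j k (by omega) (by omega)
      · right; right
        have hqy' : ¬ (true = true ∧ 0 < (st y).2) := fun h => hqy h.2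
        refine ⟨by simp [stp, hqx, hqy, hp], by simp [stp, hqx, hqy]; omega, ?_⟩
        intro j k hj hk
        rw [uu_short ⟨rfl, hqx⟩] at hj
        rw [uu_long hqy'] at hk
        rw [g_short ⟨rfl, hqx⟩, g_long hqy']
        by_cases h2 : k ≤ uu y
        · rw [if_pos h2]
          have := hD j k (by omega) h2
          have h3 := hd_le true false (g x j) (g y k)
          omega
        · rw [if_neg h2, hd_same]
          have := hD j (uu y) (by omega) le_rfl
          omega
  · -- kind 3
    have hux : uu y = uu x + 2 := by unfold uu; omega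
    right; right
    by_cases hb : b = true ∧ 0 < (st x).2
    · have hb' : b = true ∧ 0 < (st y).2 := ⟨hb.1, by omega⟩
      obtain ⟨rfl, hqx⟩ := hb
      have hqy := hb'.2
      refine ⟨by simp [stp, hqx, hqy, hp], by simp [stp, hqx, hqy]; omega, ?_⟩
      intro j k hj hk
      rw [uu_short ⟨rfl, hqx⟩] at hj
      rw [uu_short ⟨rfl, hqy⟩] at hk
      rw [g_short ⟨rfl, hqx⟩, g_short ⟨rfl, hqy⟩, hd_same]
      have hu : 0 < uu x := by unfold uu; omega
      exact hD j k (by omega) (by omega)
    · have hb' : ¬ (b = true ∧ 0 < (st y).2) := by rw [← hq]; exact hb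
      refine ⟨?_, ?_, ?_⟩
      · rw [st_bc, st_bc, stp_long hb, stp_long hb']
        split_ifs
        · show (st y).1 + 1 = (st x).1 + 1 + 2
          omega
        · show (st y).1 = (st x).1 + 2
          omega
      · rw [st_bc, st_bc, stp_long hb, stp_long hb']
        split_ifs
        · rfl
        · show (st x).2 + 1 = (st y).2 + 1
          omega
      · intro j k hj hk
        rw [uu_long hb] at hj
        rw [uu_long hb'] at hk
        rw [g_long hb, g_long hb']
        by_cases h1 : j ≤ uu x <;> by_cases h2 : k ≤ uu y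
        · rw [if_pos h1, if_pos h2, hd_same]; exact hD j k h1 h2
        · rw [if_pos h1, if_neg h2]
          have := hD j (uu y) h1 le_rfl
          have h3 := hd_le false true (g x j) (g y (uu y))
          omega
        · rw [if_neg h1, if_pos h2]
          have := hD (uu x) k le_rfl h2
          have h3 := hd_le true false (g x (uu x)) (g y k)
          omega
        · rw [if_neg h1, if_neg h2, hd_same]
          have := hD (uu x) (uu y) le_rfl le_rfl
          omega

lemma inv_upd : ∀ m (x : Fin m → Bool) (i : Fin m), x i = false →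
    Inv x (Function.update x i true) := by
  intro m
  induction m with
  | zero => intro x i; exact i.elim0
  | succ m ih =>
    intro x i hi
    refine Fin.cases ?_ ?_ i hi
    · intro h0
      have e1 : x = bc false (Fin.tail x) := by rw [← h0, bc_eta]
      have e2 : Function.update x 0 true = bc true (Fin.tail x) := by
        funext j
        refine Fin.cases ?_ ?_ j
        · simp
        · intro j
          simp [Fin.tail]
      rw [e2]
      conv => congr
              · rw [e1]
      exact inv_base _
    · intro j hj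
      have e2 : Function.update x j.succ true =
          bc (x 0) (Function.update (Fin.tail x) j true) := by
        funext l
        refine Fin.cases ?_ ?_ l
        · rw [bc_zero, Function.update_of_ne (Fin.succ_ne_zero j).symm]
        · intro l
          rw [bc_succ]
          by_cases hl : l = j
          · subst hl; simp
          · rw [Function.update_of_ne (by simpa using hl), Function.update_of_ne hl]
            rfl
      rw [e2]
      have := inv_step (x 0) (Fin.tail x) (Function.update (Fin.tail x) j true)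
        (ih (Fin.tail x) j hj)
      rwa [bc_eta] at this

lemma inv_R {m : ℕ} {x y : Fin m → Bool} (h : Inv x y) : hammingDist (R x) (R y) ≤ 11 := by
  have a1 : (st x).2 ≤ uu x := by unfold uu; omega
  have a2 : (st y).2 ≤ uu y := by unfold uu; omega
  unfold R
  rcases h with ⟨hp, hq, hD⟩ | ⟨hp, hq, hD⟩ | ⟨hp, hq, hD⟩
  · have := hD (st x).2 (st y).2 a1 a2
    omega
  · have := hD (st x).2 (st y).2 a1 a2
    omega
  · have := hD (st x).2 (st y).2 a1 a2
    omega

lemma hd_R_update {m : ℕ} (x : Fin m → Bool) (i : Fin m) :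
    hammingDist (R x) (R (Function.update x i (!x i))) ≤ 11 := by
  cases h : x i
  · exact inv_R (inv_upd m x i h)
  · have h1 : Function.update (Function.update x i false) i true = x := by
      rw [Function.update_idem, ← h, Function.update_eq_self]
    have h2 := inv_R (inv_upd m (Function.update x i false) i (by simp))
    rw [h1] at h2
    rw [hammingDist_comm]
    simpa using h2

end Pool.Agent.H99.Bracket
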