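import Mathlib
import Pool.Agent.H99.Bracket

/-!
# Average stretch of balanced halfspaces with weight classes
-/

namespace Pool.Agent.H99.Half

open Finset Pool.Agent.H99.Bracket

/-- flip one coordinate -/
def flip {n : ℕ} (x : Fin n → Bool) (i : Fin n) : Fin n → Bool := Function.update x i (!x i)

lemma flip_same {n : ℕ} (x : Fin n → Bool) (i : Fin n) : flip x i i = !x i := by simp [flip]

lemma flip_ne {n : ℕ} (x : Fin n → Bool) {i j : Fin n} (h : j ≠ i) : flip x i j = x j := by
  simp [flip, h]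

lemma flip_flip {n : ℕ} (x : Fin n → Bool) (i : Fin n) : flip (flip x i) i = x := by
  funext j
  by_cases h : j = i
  · subst h; simp [flip]
  · rw [flip_ne _ h, flip_ne _ h]

lemma hd_flip {n : ℕ} (x : Fin n → Bool) (i : Fin n) : hammingDist x (flip x i) = 1 := by
  unfold hammingDist
  rw [Finset.card_eq_one]
  refine ⟨i, ?_⟩
  ext j
  simp only [Finset.mem_filter, Finset.mem_univ, true_and, Finset.mem_singleton]
  constructor
  · intro h
    by_contra hj
    exact h (flip_ne x hj).symm
  · rintro rfl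
    rw [flip_same]
    cases x j <;> simp

/-- flipping as an equivalence -/
def flipE {n : ℕ} (i : Fin n) : (Fin n → Bool) ≃ (Fin n → Bool) where
  toFun x := flip x i
  invFun x := flip x i
  left_inv x := flip_flip x i
  right_inv x := flip_flip x i

lemma sum_flip {n : ℕ} (i : Fin n) (F : (Fin n → Bool) → ℝ) :
    ∑ x, F (flip x i) = ∑ x, F x :=
  Equiv.sum_comp (flipE i) F

lemma sg_not (b : Bool) : sg (!b) = - sg b := by cases b <;> simp

lemma sg_sq (b : Bool) : sg b * sg b = 1 := by cases b <;> simp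

lemma sg_abs (b : Bool) : |sg b| = 1 := by cases b <;> simp

lemma second_moment {n : ℕ} (J : Finset (Fin n)) :
    ∑ x : Fin n → Bool, (∑ i ∈ J, sg (x i)) ^ 2 = 2 ^ n * J.card := by
  have h1 : ∀ x : Fin n → Bool, (∑ i ∈ J, sg (x i)) ^ 2 =
      ∑ i ∈ J, ∑ j ∈ J, sg (x i) * sg (x j) := by
    intro x
    rw [sq, Finset.sum_mul_sum]
  simp_rw [h1]
  rw [Finset.sum_comm]
  have h2 : ∀ i ∈ J, ∑ x : Fin n → Bool, ∑ j ∈ J, sg (x i) * sg (x j) = 2 ^ n := by
    intro i hi
    rw [Finset.sum_comm]
    rw [Finset.sum_eq_single_of_mem i hi]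
    · simp [sg_sq]
    · intro j _ hji
      have h3 := sum_flip i (fun x : Fin n → Bool => sg (x i) * sg (x j))
      have h4 : ∑ x : Fin n → Bool, sg (flip x i i) * sg (flip x i j) =
          - ∑ x : Fin n → Bool, sg (x i) * sg (x j) := by
        rw [← Finset.sum_neg_distrib]
        refine Finset.sum_congr rfl fun x _ => ?_
        rw [flip_same, flip_ne _ hji, sg_not]; ring
      have h5 : ∑ x : Fin n → Bool, sg (x i) * sg (x j) =
          - ∑ x : Fin n → Bool, sg (x i) * sg (x j) := h3.symm.trans h4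
      linarith
  rw [Finset.sum_congr rfl h2]
  simp [mul_comm]

/-! ### weight classes -/

section classes

set_option linter.unusedSectionVars false

variable {n : ℕ} {ι : Type*} [Fintype ι] [DecidableEq ι] (cl : Fin n → ι)

/-- size of a class -/
def mc (c : ι) : ℕ := Fintype.card {i : Fin n // cl i = c}

/-- enumeration of a class -/
noncomputable def ec (c : ι) : {i : Fin n // cl i = c} ≃ Fin (mc cl c) := Fintype.equivFin _

/-- restriction to a class -/
noncomputable def rs (c : ι) (x : Fin n → Bool) : Fin (mc cl c) → Bool :=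
  fun k => x ((ec cl c).symm k).1

/-- classwise chain reversal -/
noncomputable def rho (x : Fin n → Bool) : Fin n → Bool :=
  fun i => R (rs cl (cl i) x) (ec cl (cl i) ⟨i, rfl⟩)

/-- sum of signs over a class -/
noncomputable def X (c : ι) (x : Fin n → Bool) : ℝ := ∑ i ∈ univ.filter (fun i => cl i = c), sg (x i)

lemma rho_eq (x : Fin n → Bool) (c : ι) (i : Fin n) (h : cl i = c) :
    rho cl x i = R (rs cl c x) (ec cl c ⟨i, h⟩) := by
  subst h; rfl

lemma rs_rho (c : ι) (x : Fin n → Bool) : rs cl c (rho cl x) = R (rs cl c x) := by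
  funext k
  show rho cl x ((ec cl c).symm k).1 = _
  rw [rho_eq cl x c _ ((ec cl c).symm k).2]
  congr 1
  exact (ec cl c).apply_symm_apply k

lemma sum_class {M : Type*} [AddCommMonoid M] (c : ι) (F : Fin n → M) :
    ∑ i ∈ univ.filter (fun i => cl i = c), F i = ∑ k, F ((ec cl c).symm k).1 := by
  rw [Finset.sum_subtype (p := fun i => cl i = c) _ (by simp) F]
  exact (Equiv.sum_comp (ec cl c).symm (fun j => F j.1)).symm

lemma sum_all {M : Type*} [AddCommMonoid M] (F : Fin n → M) :
    ∑ i, F i = ∑ c, ∑ k, F ((ec cl c).symm k).1 := by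
  rw [← Finset.sum_fiberwise (univ : Finset (Fin n)) cl F]
  exact Finset.sum_congr rfl fun c _ => sum_class cl c F

lemma X_eq (c : ι) (x : Fin n → Bool) : X cl c x = ∑ k, sg (rs cl c x k) :=
  sum_class cl c (fun i => sg (x i))

lemma card_class (c : ι) : (univ.filter (fun i => cl i = c)).card = mc cl c := by
  unfold mc
  rw [Fintype.card_subtype]

lemma sum_mc : ∑ c, mc cl c = n := by
  have := Finset.card_eq_sum_card_fiberwise (f := cl) (s := (univ : Finset (Fin n)))
    (t := (univ : Finset ι)) (by intro x _; simp)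
  simp only [Finset.card_univ, Fintype.card_fin] at this
  exact (Finset.sum_congr rfl fun c _ => (card_class cl c).symm).trans this.symm

lemma hd_class (x y : Fin n → Bool) :
    hammingDist x y = ∑ c, hammingDist (rs cl c x) (rs cl c y) := by
  unfold hammingDist
  rw [Finset.card_filter, sum_all cl]
  refine Finset.sum_congr rfl fun c _ => ?_
  rw [Finset.card_filter]
  rfl

lemma rho_rho (x : Fin n → Bool) : rho cl (rho cl x) = x := by
  rw [← hammingDist_eq_zero, hd_class cl]
  refine Finset.sum_eq_zero fun c _ => ?_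
  rw [rs_rho, rs_rho, R_R, hammingDist_self]

lemma X_rho (c : ι) (x : Fin n → Bool) : X cl c (rho cl x) = - X cl c x := by
  rw [X_eq, X_eq, rs_rho, sum_R]

lemma hd_rho (x : Fin n → Bool) : (hammingDist x (rho cl x) : ℝ) ≤ ∑ c, |X cl c x| := by
  rw [hd_class cl]
  push_cast
  refine Finset.sum_le_sum fun c _ => ?_
  rw [rs_rho, X_eq]
  exact hd_R _

lemma rs_flip_ne (c : ι) (x : Fin n → Bool) (i : Fin n) (h : cl i ≠ c) :
    rs cl c (flip x i) = rs cl c x := by
  funext k
  unfold rs
  apply flip_ne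
  intro hk
  exact h (hk ▸ ((ec cl c).symm k).2)

lemma rs_flip_eq (c : ι) (x : Fin n → Bool) (i : Fin n) (h : cl i = c) :
    rs cl c (flip x i) = Function.update (rs cl c x) (ec cl c ⟨i, h⟩)
      (!(rs cl c x (ec cl c ⟨i, h⟩))) := by
  funext k
  by_cases hk : k = ec cl c ⟨i, h⟩
  · subst hk
    simp [rs, flip]
  · rw [Function.update_of_ne hk]
    unfold rs
    apply flip_ne
    intro h2
    apply hk
    rw [← (ec cl c).apply_symm_apply k]
    congr 1
    exact Subtype.ext h2

lemma hd_rho_flip (x : Fin n → Bool) (i : Fin n) :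
    hammingDist (rho cl x) (rho cl (flip x i)) ≤ 11 := by
  rw [hd_class cl, Finset.sum_eq_single (cl i)]
  · rw [rs_rho, rs_rho, rs_flip_eq cl (cl i) x i rfl]
    exact hd_R_update _ _
  · intro c _ hc
    rw [rs_rho, rs_rho, rs_flip_ne cl c x i (Ne.symm hc), hammingDist_self]
  · intro h; exact absurd (Finset.mem_univ _) h

lemma X_flip (c : ι) (x : Fin n → Bool) (i : Fin n) :
    X cl c (flip x i) = X cl c x - (if cl i = c then 2 * sg (x i) else 0) := by
  unfold X
  have h : ∀ j, sg (flip x i j) = sg (x j) - (if j = i then 2 * sg (x i) else 0) := by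
    intro j
    by_cases hj : j = i
    · subst hj; rw [flip_same, sg_not]; simp; ring
    · rw [flip_ne _ hj]; simp [hj]
  simp_rw [h]
  rw [Finset.sum_sub_distrib]
  congr 1
  rw [Finset.sum_ite_eq']
  simp

lemma absX_flip (c : ι) (x : Fin n → Bool) (i : Fin n) :
    abs (|X cl c (flip x i)| - |X cl c x|) ≤ if cl i = c then 2 else 0 := by
  refine (abs_abs_sub_abs_le_abs_sub _ _).trans ?_
  rw [X_flip]
  split_ifs
  · have : X cl c x - 2 * sg (x i) - X cl c x = - (2 * sg (x i)) := by ring
    rw [this, abs_neg, abs_mul, sg_abs]; simp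
  · simp

lemma sumAbsX_flip (x : Fin n → Bool) (i : Fin n) :
    ∑ c, |X cl c (flip x i)| ≤ ∑ c, |X cl c x| + 2 := by
  have h : ∑ c, (|X cl c (flip x i)| - |X cl c x|) ≤ ∑ c, (if cl i = c then (2 : ℝ) else 0) :=
    Finset.sum_le_sum fun c _ => (le_abs_self _).trans (absX_flip cl c x i)
  rw [Finset.sum_sub_distrib] at h
  simp at h
  linarith

/-! ### the map -/

/-- linear form with class weights plus the last weight -/
noncomputable def Lf (w : ι → ℝ) (b : ℝ) (x : Fin n → Bool) : ℝ := ∑ i, w (cl i) * sg (x i) + b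

lemma Lf_class (w : ι → ℝ) (b : ℝ) (x : Fin n → Bool) :
    Lf cl w b x = ∑ c, w c * X cl c x + b := by
  unfold Lf
  congr 1
  rw [← Finset.sum_fiberwise (univ : Finset (Fin n)) cl]
  refine Finset.sum_congr rfl fun c _ => ?_
  unfold X
  rw [Finset.mul_sum]
  refine Finset.sum_congr rfl fun i hi => ?_
  rw [(Finset.mem_filter.1 hi).2]

lemma Lf_rho (w : ι → ℝ) (b : ℝ) (x : Fin n → Bool) :
    Lf cl w b (rho cl x) = 2 * b - Lf cl w b x := by
  rw [Lf_class, Lf_class]
  simp_rw [X_rho, mul_neg]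
  rw [Finset.sum_neg_distrib]; ring

lemma Lf_flip (w : ι → ℝ) (b : ℝ) (x : Fin n → Bool) (i : Fin n) :
    Lf cl w b (flip x i) = Lf cl w b x - 2 * w (cl i) * sg (x i) := by
  unfold Lf
  have h : ∀ j, w (cl j) * sg (flip x i j) =
      w (cl j) * sg (x j) - (if j = i then 2 * w (cl i) * sg (x i) else 0) := by
    intro j
    by_cases hj : j = i
    · subst hj; rw [flip_same, sg_not]; simp; ring
    · rw [flip_ne _ hj]; simp [hj]
  simp_rw [h]
  rw [Finset.sum_sub_distrib]
  simp
  ring

/-- the bijection onto the halfspace -/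
noncomputable def fmap (w : ι → ℝ) (b : ℝ) (x : Fin n → Bool) : Fin (n + 1) → Bool :=
  if 0 ≤ Lf cl w b x then Fin.snoc (α := fun _ => Bool) x true
  else Fin.snoc (α := fun _ => Bool) (rho cl x) false

lemma hd_snoc (x y : Fin n → Bool) (a c : Bool) :
    hammingDist (Fin.snoc (α := fun _ => Bool) x a : Fin (n + 1) → Bool)
      (Fin.snoc (α := fun _ => Bool) y c) = hammingDist x y + (if a = c then 0 else 1) := by
  unfold hammingDist
  rw [Finset.card_filter, Finset.card_filter, Fin.sum_univ_castSucc]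
  congr 1
  · simp
  · by_cases h : a = c <;> simp [h]

/-- indicator of the edges crossing the boundary -/
noncomputable def cr (w : ι → ℝ) (b : ℝ) (x : Fin n → Bool) (i : Fin n) : ℝ :=
  if (0 ≤ Lf cl w b x ↔ 0 ≤ Lf cl w b (flip x i)) then 0 else 1

/-- sign of the linear form -/
noncomputable def ch (w : ι → ℝ) (b : ℝ) (x : Fin n → Bool) : ℝ :=
  if 0 ≤ Lf cl w b x then 1 else -1

lemma cr_eq (w : ι → ℝ) (hw : ∀ c, 0 ≤ w c) (b : ℝ) (x : Fin n → Bool) (i : Fin n) :
    cr cl w b x i = (ch cl w b x - ch cl w b (flip x i)) * sg (x i) / 2 := by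
  unfold cr ch
  have h := Lf_flip cl w b x i
  have hwi := hw (cl i)
  by_cases h1 : 0 ≤ Lf cl w b x <;> by_cases h2 : 0 ≤ Lf cl w b (flip x i)
  · simp [h1, h2]
  · cases hx : x i
    · exfalso; rw [hx, sg_false] at h; apply h2; linarith
    · simp [h1, h2]
  · cases hx : x i
    · simp [h1, h2]
    · exfalso; rw [hx, sg_true] at h; apply h1; linarith
  · simp [h1, h2]

lemma cr_nonneg (w : ι → ℝ) (b : ℝ) (x : Fin n → Bool) (i : Fin n) : 0 ≤ cr cl w b x i := by
  unfold cr; split_ifs <;> norm_num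

lemma ch_abs (w : ι → ℝ) (b : ℝ) (x : Fin n → Bool) : |ch cl w b x| = 1 := by
  unfold ch; split_ifs <;> simp

/-- discrete integration by parts -/
lemma ibp (w : ι → ℝ) (hw : ∀ c, 0 ≤ w c) (b : ℝ) (h : (Fin n → Bool) → ℝ) (i : Fin n) :
    ∑ x, cr cl w b x i * h x =
      ∑ x, ch cl w b x * (sg (x i) * (h x + h (flip x i))) / 2 := by
  have h1 : ∀ x, cr cl w b x i * h x = ch cl w b x * (sg (x i) * h x) / 2 -
      ch cl w b (flip x i) * (sg (x i) * h x) / 2 := by
    intro x
    rw [cr_eq cl w hw]; ring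
  simp_rw [h1]
  rw [Finset.sum_sub_distrib]
  rw [← sum_flip i (fun x => ch cl w b (flip x i) * (sg (x i) * h x) / 2)]
  rw [← Finset.sum_sub_distrib]
  refine Finset.sum_congr rfl fun x _ => ?_
  rw [flip_flip, flip_same, sg_not]
  ring

lemma sum_cr_X (w : ι → ℝ) (hw : ∀ c, 0 ≤ w c) (b : ℝ) (c : ι) :
    ∑ x, ∑ i, cr cl w b x i * |X cl c x| ≤ 2 ^ n * (2 * Real.sqrt n * Real.sqrt (mc cl c)) := by
  rw [Finset.sum_comm]
  simp_rw [ibp cl w hw b]
  rw [Finset.sum_comm]
  set T : (Fin n → Bool) → ℝ := fun x => ∑ i, sg (x i) with hT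
  have key : ∀ x : Fin n → Bool,
      ∑ i, ch cl w b x * (sg (x i) * (|X cl c x| + |X cl c (flip x i)|)) / 2 ≤
        |X cl c x| * |T x| + mc cl c := by
    intro x
    have e1 : ∑ i, ch cl w b x * (sg (x i) * (|X cl c x| + |X cl c (flip x i)|)) / 2 =
        ch cl w b x * (|X cl c x| * T x) +
        ∑ i, ch cl w b x * (sg (x i) * (|X cl c (flip x i)| - |X cl c x|)) / 2 := by
      rw [hT]
      simp only
      rw [Finset.mul_sum, Finset.mul_sum, ← Finset.sum_add_distrib]
      refine Finset.sum_congr rfl fun i _ => ?_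
      ring
    rw [e1]
    apply add_le_add
    · refine (le_abs_self _).trans ?_
      rw [abs_mul, ch_abs, one_mul, abs_mul, abs_abs]
    · calc ∑ i, ch cl w b x * (sg (x i) * (|X cl c (flip x i)| - |X cl c x|)) / 2
          ≤ ∑ i, (if cl i = c then (1 : ℝ) else 0) := by
            refine Finset.sum_le_sum fun i _ => ?_
            refine (le_abs_self _).trans ?_
            rw [abs_div, abs_mul, abs_mul, ch_abs, sg_abs, one_mul, one_mul]
            have := absX_flip cl c x i
            rw [abs_of_pos (by norm_num : (0 : ℝ) < 2)]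
            split_ifs with h
            · rw [if_pos h] at this; linarith
            · rw [if_neg h] at this; linarith
        _ = mc cl c := by
            rw [← card_class]
            simp
  refine (Finset.sum_le_sum fun x _ => key x).trans ?_
  rw [Finset.sum_add_distrib]
  have hX2 : ∑ x : Fin n → Bool, |X cl c x| ^ 2 = 2 ^ n * mc cl c := by
    simp_rw [sq_abs]
    unfold X
    rw [second_moment, card_class]
  have hT2 : ∑ x : Fin n → Bool, |T x| ^ 2 = 2 ^ n * n := by
    simp_rw [sq_abs]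
    rw [hT]
    simp only
    rw [second_moment]; simp
  have hcs : ∑ x : Fin n → Bool, |X cl c x| * |T x| ≤
      2 ^ n * (Real.sqrt n * Real.sqrt (mc cl c)) := by
    have h := Finset.sum_mul_sq_le_sq_mul_sq (univ : Finset (Fin n → Bool))
      (fun x => |X cl c x|) (fun x => |T x|)
    rw [hX2, hT2] at h
    have h0 : 0 ≤ 2 ^ n * (Real.sqrt n * Real.sqrt (mc cl c)) := by positivity
    refine abs_le_of_sq_le_sq' ?_ h0 |>.2
    refine h.trans (le_of_eq ?_)
    have e1 : Real.sqrt n ^ 2 = n := Real.sq_sqrt (by positivity)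
    have e2 : Real.sqrt (mc cl c) ^ 2 = mc cl c := Real.sq_sqrt (by positivity)
    calc (2 : ℝ) ^ n * (mc cl c) * (2 ^ n * n) = (2 ^ n) ^ 2 * ((n : ℝ) * mc cl c) := by ring
      _ = (2 ^ n) ^ 2 * (Real.sqrt n ^ 2 * Real.sqrt (mc cl c) ^ 2) := by rw [e1, e2]
      _ = _ := by ring
  have hm : (mc cl c : ℝ) ≤ Real.sqrt n * Real.sqrt (mc cl c) := by
    have h1 : (mc cl c : ℝ) ≤ n := by
      have := sum_mc cl
      have h2 : mc cl c ≤ ∑ c, mc cl c :=
        Finset.single_le_sum (fun _ _ => Nat.zero_le _) (Finset.mem_univ c)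
      rw [this] at h2
      exact_mod_cast h2
    have e2 : (mc cl c : ℝ) = Real.sqrt (mc cl c) * Real.sqrt (mc cl c) :=
      (Real.mul_self_sqrt (by positivity)).symm
    calc (mc cl c : ℝ) = Real.sqrt (mc cl c) * Real.sqrt (mc cl c) := e2
      _ ≤ Real.sqrt n * Real.sqrt (mc cl c) :=
        mul_le_mul_of_nonneg_right (Real.sqrt_le_sqrt h1) (Real.sqrt_nonneg _)
  have hc : ∑ x : Fin n → Bool, (mc cl c : ℝ) = 2 ^ n * mc cl c := by
    rw [Finset.sum_const, Finset.card_univ]; simp
  rw [hc]
  have h2n : (0 : ℝ) < 2 ^ n := by positivity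
  nlinarith [mul_le_mul_of_nonneg_left hm h2n.le]

lemma cr_zero {w : ι → ℝ} {b : ℝ} {x : Fin n → Bool} {i : Fin n}
    (h : 0 ≤ Lf cl w b x ↔ 0 ≤ Lf cl w b (flip x i)) : cr cl w b x i = 0 := by
  unfold cr; rw [if_pos h]

lemma cr_one {w : ι → ℝ} {b : ℝ} {x : Fin n → Bool} {i : Fin n}
    (h : ¬ (0 ≤ Lf cl w b x ↔ 0 ≤ Lf cl w b (flip x i))) : cr cl w b x i = 1 := by
  unfold cr; rw [if_neg h]

lemma hd_fmap (w : ι → ℝ) (b : ℝ) (x : Fin n → Bool) (i : Fin n) :
    (hammingDist (fmap cl w b x) (fmap cl w b (flip x i)) : ℝ) ≤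
      11 + cr cl w b x i * ∑ c, |X cl c x| := by
  have hD : 0 ≤ ∑ c, |X cl c x| := Finset.sum_nonneg fun c _ => abs_nonneg _
  have hfl := hd_flip x i
  unfold fmap
  by_cases h1 : 0 ≤ Lf cl w b x <;> by_cases h2 : 0 ≤ Lf cl w b (flip x i)
  · rw [if_pos h1, if_pos h2, hd_snoc, cr_zero cl (by tauto), hfl]
    norm_num
  · rw [if_pos h1, if_neg h2, hd_snoc, cr_one cl (by tauto)]
    have h3 := hd_rho cl (flip x i)
    have h4 := sumAbsX_flip cl x i
    have h5 := hammingDist_triangle x (flip x i) (rho cl (flip x i))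
    rw [hfl] at h5
    have h6 : (hammingDist x (rho cl (flip x i)) : ℝ) ≤
        1 + hammingDist (flip x i) (rho cl (flip x i)) := by exact_mod_cast h5
    rw [if_neg (by simp)]
    push_cast
    linarith
  · rw [if_neg h1, if_pos h2, hd_snoc, cr_one cl (by tauto)]
    have h3 := hd_rho cl x
    have h5 := hammingDist_triangle (rho cl x) x (flip x i)
    rw [hfl] at h5
    have h6 : (hammingDist (rho cl x) (flip x i) : ℝ) ≤
        hammingDist (rho cl x) x + 1 := by exact_mod_cast h5
    rw [hammingDist_comm] at h3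
    rw [if_neg (by simp)]
    push_cast
    linarith
  · rw [if_neg h1, if_neg h2, hd_snoc, cr_zero cl (by tauto)]
    have := hd_rho_flip cl x i
    have h3 : (hammingDist (rho cl x) (rho cl (flip x i)) : ℝ) ≤ 11 := by exact_mod_cast this
    rw [if_pos rfl]
    push_cast
    linarith

theorem total (w : ι → ℝ) (hw : ∀ c, 0 ≤ w c) (b : ℝ) :
    ∑ x, ∑ i, (hammingDist (fmap cl w b x) (fmap cl w b (flip x i)) : ℝ) ≤
      2 ^ n * (11 * n + 2 * Real.sqrt n * ∑ c, Real.sqrt (mc cl c)) := by
  calc ∑ x, ∑ i, (hammingDist (fmap cl w b x) (fmap cl w b (flip x i)) : ℝ)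
      ≤ ∑ x : Fin n → Bool, ∑ i : Fin n, (11 + cr cl w b x i * ∑ c, |X cl c x|) :=
        Finset.sum_le_sum fun x _ => Finset.sum_le_sum fun i _ => hd_fmap cl w b x i
    _ = 2 ^ n * (11 * n) + ∑ c, ∑ x, ∑ i, cr cl w b x i * |X cl c x| := by
        have e : ∀ x : Fin n → Bool, ∑ i : Fin n, (11 + cr cl w b x i * ∑ c, |X cl c x|) =
            11 * n + ∑ c, ∑ i, cr cl w b x i * |X cl c x| := by
          intro x
          rw [Finset.sum_add_distrib, Finset.sum_comm]
          congr 1
          · simp; ring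
          · exact Finset.sum_congr rfl fun i _ => Finset.mul_sum _ _ _
        simp_rw [e]
        rw [Finset.sum_add_distrib, Finset.sum_comm]
        congr 1
        simp
    _ ≤ 2 ^ n * (11 * n) + ∑ c, 2 ^ n * (2 * Real.sqrt n * Real.sqrt (mc cl c)) := by
        gcongr with c _
        exact sum_cr_X cl w hw b c
    _ = _ := by
        rw [mul_add, Finset.mul_sum, Finset.mul_sum]

lemma snoc_lf (w : ι → ℝ) (b : ℝ) (x : Fin n → Bool) (e : Bool) :
    (∑ i : Fin n, w (cl i) * sg ((Fin.snoc (α := fun _ => Bool) x e : Fin (n + 1) → Bool)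
      i.castSucc)) + b * sg ((Fin.snoc (α := fun _ => Bool) x e : Fin (n + 1) → Bool) (Fin.last n))
      = ∑ i : Fin n, w (cl i) * sg (x i) + b * sg e := by
  simp

/-- the (tie-free) halfspace with nonnegative weights is the image of `fmap` -/
theorem image (w : ι → ℝ) (b : ℝ)
    (ht : ∀ y : Fin (n + 1) → Bool,
      ∑ i : Fin n, w (cl i) * sg (y i.castSucc) + b * sg (y (Fin.last n)) ≠ 0) :
    Function.Injective (fmap cl w b) ∧ Set.range (fmap cl w b) =
      {y | 0 ≤ ∑ i : Fin n, w (cl i) * sg (y i.castSucc) + b * sg (y (Fin.last n))} := by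
  constructor
  · intro x y hxy
    unfold fmap at hxy
    by_cases h1 : 0 ≤ Lf cl w b x <;> by_cases h2 : 0 ≤ Lf cl w b y
    · rw [if_pos h1, if_pos h2] at hxy
      exact (Fin.snoc_inj.1 hxy).1
    · rw [if_pos h1, if_neg h2] at hxy
      have := (Fin.snoc_inj.1 hxy).2
      simp at this
    · rw [if_neg h1, if_pos h2] at hxy
      have := (Fin.snoc_inj.1 hxy).2
      simp at this
    · rw [if_neg h1, if_neg h2] at hxy
      have := (Fin.snoc_inj.1 hxy).1
      rw [← rho_rho cl x, this, rho_rho]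
  · ext y
    simp only [Set.mem_range, Set.mem_ofPred_eq]
    constructor
    · rintro ⟨x, rfl⟩
      unfold fmap
      by_cases h1 : 0 ≤ Lf cl w b x
      · rw [if_pos h1, snoc_lf]
        unfold Lf at h1
        simpa using h1
      · rw [if_neg h1, snoc_lf]
        have h2 := Lf_rho cl w b x
        unfold Lf at h1 h2
        rw [sg_false]
        push Not at h1
        linarith
    · intro hy
      have hy0 := ht y
      have hy1 := lt_of_le_of_ne hy (Ne.symm hy0)
      cases hl : y (Fin.last n)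
      · refine ⟨rho cl (Fin.init y), ?_⟩
        have h2 := Lf_rho cl w b (Fin.init y)
        rw [hl, sg_false] at hy1
        have h3 : Lf cl w b (Fin.init y) = ∑ i : Fin n, w (cl i) * sg (y i.castSucc) + b := rfl
        have h4 : ¬ 0 ≤ Lf cl w b (rho cl (Fin.init y)) := by
          rw [h2, h3]; push Not; linarith
        unfold fmap
        rw [if_neg h4, rho_rho, ← hl]
        exact Fin.snoc_init_self y
      · refine ⟨Fin.init y, ?_⟩
        rw [hl, sg_true] at hy1
        have h3 : Lf cl w b (Fin.init y) = ∑ i : Fin n, w (cl i) * sg (y i.castSucc) + b := rfl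
        have h4 : 0 ≤ Lf cl w b (Fin.init y) := by
          rw [h3]; linarith
        unfold fmap
        rw [if_pos h4, ← hl]
        exact Fin.snoc_init_self y

end classes

/-! ### general signs of the weights -/

/-- flip the coordinates with negative weight -/
noncomputable def tw {m : ℕ} (a : Fin m → ℝ) (y : Fin m → Bool) : Fin m → Bool :=
  fun i => if a i < 0 then !(y i) else y i

lemma tw_tw {m : ℕ} (a : Fin m → ℝ) (y : Fin m → Bool) : tw a (tw a y) = y := by
  funext i
  unfold tw
  split_ifs <;> simp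

lemma hd_tw {m : ℕ} (a : Fin m → ℝ) (y z : Fin m → Bool) :
    hammingDist (tw a y) (tw a z) = hammingDist y z := by
  unfold hammingDist
  congr 1
  ext i
  simp only [Finset.mem_filter, Finset.mem_univ, true_and]
  unfold tw
  split_ifs
  · cases y i <;> cases z i <;> simp
  · rfl

lemma sum_tw {m : ℕ} (a : Fin m → ℝ) (y : Fin m → Bool) :
    ∑ i, |a i| * sg (tw a y i) = ∑ i, a i * sg (y i) := by
  refine Finset.sum_congr rfl fun i _ => ?_
  unfold tw
  split_ifs with h
  · rw [sg_not, abs_of_neg h]; ring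
  · rw [abs_of_nonneg (not_lt.1 h)]

/-- **Main construction.**  Let `a : Fin (n+1) → ℝ` be weights without ties whose absolute values
`|a i|`, `i < n`, are constant on the classes of `cl`.  Then there is a bijection of the cube
`Fin n → Bool` onto the halfspace with total stretch at most
`2^n (11 n + 2 √n ∑_c √m_c)`, `m_c` being the size of the class `c`. -/
theorem exists_map {n : ℕ} {ι : Type*} [Fintype ι] [DecidableEq ι] (cl : Fin n → ι) (w : ι → ℝ)
    (hw : ∀ c, 0 ≤ w c) (a : Fin (n + 1) → ℝ) (ha : ∀ i : Fin n, |a i.castSucc| = w (cl i))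
    (ht : ∀ y : Fin (n + 1) → Bool, ∑ i, a i * sg (y i) ≠ 0) :
    ∃ f : (Fin n → Bool) → (Fin (n + 1) → Bool), Function.Injective f ∧
      Set.range f = {y | 0 ≤ ∑ i, a i * sg (y i)} ∧
      ∑ x, ∑ i, (hammingDist (f x) (f (flip x i)) : ℝ) ≤
        2 ^ n * (11 * n + 2 * Real.sqrt n * ∑ c, Real.sqrt (mc cl c)) := by
  have key : ∀ y : Fin (n + 1) → Bool,
      ∑ i : Fin n, w (cl i) * sg (y i.castSucc) + |a (Fin.last n)| * sg (y (Fin.last n)) =
        ∑ i, a i * sg (tw a y i) := by
    intro y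
    rw [← sum_tw a (tw a y), tw_tw, Fin.sum_univ_castSucc]
    simp_rw [ha]
  obtain ⟨h1, h2⟩ := image cl w |a (Fin.last n)| (fun y => by rw [key]; exact ht _)
  refine ⟨fun x => tw a (fmap cl w |a (Fin.last n)| x), ?_, ?_, ?_⟩
  · intro x y hxy
    apply h1
    have := congrArg (tw a) hxy
    simpa [tw_tw] using this
  · ext y
    have h3 : tw a y ∈ Set.range (fmap cl w |a (Fin.last n)|) ↔ 0 ≤ ∑ i, a i * sg (y i) := by
      rw [h2]
      simp only [Set.mem_ofPred_eq]
      rw [key, tw_tw]
    simp only [Set.mem_ofPred_eq]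
    rw [← h3]
    constructor
    · rintro ⟨x, rfl⟩
      exact ⟨x, (tw_tw a _).symm⟩
    · rintro ⟨x, hx⟩
      exact ⟨x, by simp only; rw [hx, tw_tw]⟩
  · simp_rw [hd_tw]
    exact total cl w hw _

/-- a halfspace of size `2^n` has no ties -/
theorem no_ties {n : ℕ} (a : Fin (n + 1) → ℝ)
    (hc : Set.ncard {y : Fin (n + 1) → Bool | 0 ≤ ∑ i, a i * sg (y i)} = 2 ^ n) :
    ∀ y : Fin (n + 1) → Bool, ∑ i, a i * sg (y i) ≠ 0 := by
  classical
  intro y0 hy0
  set L : (Fin (n + 1) → Bool) → ℝ := fun y => ∑ i, a i * sg (y i) with hL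
  have hneg : ∀ y, L (fun i => !(y i)) = - L y := by
    intro y
    rw [hL]
    simp only
    rw [← Finset.sum_neg_distrib]
    refine Finset.sum_congr rfl fun i _ => ?_
    rw [sg_not]; ring
  have e1 : Set.ncard {y : Fin (n + 1) → Bool | 0 ≤ L y} =
      (univ.filter (fun y => 0 ≤ L y)).card := by
    rw [Set.ncard_eq_toFinset_card']
    congr 1
    ext y
    simp
  have e2 : (univ.filter (fun y => 0 ≤ L y)).card = 2 ^ n := by rw [← e1]; exact hc
  have e3 : (univ.filter (fun y => ¬ 0 ≤ L y)).card = 2 ^ n := by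
    have h := Finset.card_filter_add_card_filter_not (s := (univ : Finset (Fin (n + 1) → Bool)))
      (fun y => 0 ≤ L y)
    rw [e2, Finset.card_univ, Fintype.card_fun, Fintype.card_bool, Fintype.card_fin, pow_succ] at h
    omega
  have e4 : (univ.filter (fun y => ¬ 0 ≤ L y)).card ≤
      ((univ.filter (fun y => 0 ≤ L y)).erase y0).card := by
    refine Finset.card_le_card_of_injOn (fun y i => !(y i)) ?_ ?_
    · intro y hy
      have hy' : L y < 0 := by simpa using hy
      have h1 := hneg y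
      simp only [Finset.coe_erase, Set.mem_sdiff, Finset.coe_filter, Finset.mem_univ, true_and,
        Set.mem_ofPred_eq, Set.mem_singleton_iff]
      refine ⟨by rw [h1]; linarith, ?_⟩
      intro h
      rw [h] at h1
      have : L y0 = 0 := hy0
      linarith
    · intro y _ z _ h
      funext i
      have := congrFun h i
      simpa using this
  have e5 : y0 ∈ univ.filter (fun y => 0 ≤ L y) := by
    simp only [Finset.mem_filter, Finset.mem_univ, true_and]
    have : L y0 = 0 := hy0
    rw [this]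
  rw [Finset.card_erase_of_mem e5, e2, e3] at e4
  have : 0 < 2 ^ n := by positivity
  omega

end Pool.Agent.H99.Half
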